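import Pool.Graph.R_pool_sql_team_8f841797.H16.JG3

set_option autoImplicit false

/-!
A normal form for grammars with jumping derivations: every language which is generated in the
jumping mode by a system of arbitrary monotone rules (also rules which rewrite terminals, finitely
many axioms, intersection with a letter-to-letter preimage) is generated by a context-sensitive
grammar in the jumping mode, all of whose rules are `α A β → α b β` or `A → b c`.
-/

namespace Pool.Agent.Results.MP_708d71_lc.GrowthNormalForm

open Relation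

/-- One jumping step over the alphabet `V` with the rules `P`: one occurrence of the left-hand side
of a rule is removed, and its right-hand side is inserted at any position of what remains. -/
def Jump {V : Type} (P : Set (List V × List V)) (a b : List V) : Prop :=
  ∃ r ∈ P, ∃ u v u' v' : List V, a = u ++ r.1 ++ v ∧ b = u' ++ r.2 ++ v' ∧ u ++ v = u' ++ v'

section axioms
variable {V : Type}

/-- rules over `Option V` with the single axiom `[none]` -/
def AxP (P : Set (List V × List V)) (A : Set (List V)) :
    Set (List (Option V) × List (Option V)) :=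
  {r | (∃ s ∈ P, r = (s.1.map some, s.2.map some)) ∨ ∃ a ∈ A, r = ([none], a.map some)}

theorem map_some_split {u x v : List (Option V)} {z : List V} (h : u ++ x ++ v = z.map some) :
    ∃ u' x' v', u = u'.map some ∧ x = x'.map some ∧ v = v'.map some ∧ z = u' ++ x' ++ v' := by
  obtain ⟨β1, v1, rfl, h4, rfl⟩ := List.map_eq_append_iff.1 h.symm
  obtain ⟨u1, y1, rfl, rfl, rfl⟩ := List.map_eq_append_iff.1 h4
  exact ⟨_, _, _, rfl, rfl, rfl, rfl⟩

theorem some_inj' {x y : List V} (h : x.map some = y.map some) : x = y :=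
  List.map_injective_iff.2 (Option.some_injective V) h

theorem axioms_iff {P : Set (List V × List V)} {A : Set (List V)} (hP : ∀ r ∈ P, r.1 ≠ [])
    (w : List V) :
    ReflTransGen (Jump (AxP P A)) [none] (w.map some) ↔ ∃ a ∈ A, ReflTransGen (Jump P) a w := by
  constructor
  · intro h
    have key : ∀ β, ReflTransGen (Jump (AxP P A)) [none] β →
        β = [none] ∨ ∃ z, β = z.map some ∧ ∃ a ∈ A, ReflTransGen (Jump P) a z := by
      intro β hβ
      induction hβ with
      | refl => exact Or.inl rfl
      | tail _ h1 ih =>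
        obtain ⟨r, hr, u, v, u', v', rfl, rfl, e⟩ := h1
        rcases ih with ih | ⟨z, ih, a, ha, h2⟩
        · rcases hr with ⟨s, hs, rfl⟩ | ⟨a, ha, rfl⟩
          · exfalso
            have h3 := hP s hs
            obtain ⟨c, x, h4⟩ := List.exists_cons_of_ne_nil h3
            have : some c ∈ ([none] : List (Option V)) := by
              rw [← ih, h4]; simp
            simp at this
          · have h3 := congrArg List.length ih
            simp only [List.length_append, List.length_cons, List.length_nil] at h3
            have h4 : (u' ++ v').length = 0 := by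
              rw [← e, List.length_append]; omega
            have h5 := List.eq_nil_of_length_eq_zero h4
            obtain ⟨rfl, rfl⟩ := List.append_eq_nil_iff.1 h5
            exact Or.inr ⟨a, by simp, a, ha, .refl⟩
        · obtain ⟨u1, x1, v1, rfl, h4, rfl, rfl⟩ := map_some_split ih
          rcases hr with ⟨s, hs, rfl⟩ | ⟨a, ha, rfl⟩
          · obtain rfl := some_inj' h4
            obtain ⟨u2, v2, h5, rfl, rfl⟩ :=
              List.map_eq_append_iff.1 (List.map_append.trans e)
            exact Or.inr ⟨u2 ++ s.2 ++ v2, by simp, a, ha,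
              h2.tail ⟨s, hs, u1, v1, u2, v2, rfl, rfl, h5⟩⟩
          · exfalso
            simp only at h4
            cases x1 <;> simp at h4
    rcases key _ h with h1 | ⟨z, h1, h2⟩
    · cases w <;> simp at h1
    · obtain rfl := some_inj' h1
      exact h2
  · rintro ⟨a, ha, h⟩
    refine ReflTransGen.head (b := a.map some)
      ⟨([none], a.map some), Or.inr ⟨a, ha, rfl⟩, [], [], [], [], rfl, by simp, rfl⟩ ?_
    refine ReflTransGen.lift (List.map some) ?_ _ _ h
    rintro _ _ ⟨r, hr, u, v, u', v', rfl, rfl, e⟩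
    exact ⟨(r.1.map some, r.2.map some), Or.inl ⟨r, hr, rfl⟩, u.map some, v.map some,
      u'.map some, v'.map some, by simp, by simp, by simp only [← List.map_append, e]⟩

end axioms

open Pool.Agent.H16.JG

section layer0
variable {T V : Type}

def pj (τ : T → V) : Symbol T V → V
  | .terminal a => τ a
  | .nonterminal X => X

theorem layer0' [Finite T] [Finite V] (τ : T → V) {P : Set (List V × List V)} (hP : P.Finite)
    (h : ∀ r ∈ P, r.1 ≠ [] ∧ r.1.length ≤ r.2.length) (S : V) (hS : ∀ a, τ a ≠ S) :
    ∃ P' : Set (Ru T V), P'.Finite ∧ Mono P' ∧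
      Lg P' S = {w | ReflTransGen (Jump P) [S] (w.map τ)} := by
  obtain ⟨n, hn⟩ := (hP.image fun r => r.2.length).bddAbove
  let P' : Set (Ru T V) :=
    {r' | ∃ r ∈ P, r'.1 = r.1.map .nonterminal ∧ r'.2.map (pj τ) = r.2}
  have e1 : ∀ x : List V, (x.map (.nonterminal : V → Symbol T V)).map (pj τ) = x := by
    intro x; induction x <;> simp_all [pj]
  have e2 : ∀ w : List T, (w.map (.terminal : T → Symbol T V)).map (pj τ) = w.map τ := by
    intro x; induction x <;> simp_all [pj]
  refine ⟨P', fin_of_len n ?_, ?_, ?_⟩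
  · rintro r' ⟨r, hr, h1, h2⟩
    have := hn ⟨r, hr, rfl⟩
    have := (h r hr).2
    have := congrArg List.length h2
    simp only [h1, List.length_map] at *
    omega
  · rintro r' ⟨r, hr, h1, h2⟩
    have := (h r hr).2
    have := congrArg List.length h2
    refine ⟨by simp [h1, (h r hr).1], by simp only [h1, List.length_map] at *; omega, ?_⟩
    intro a ha
    rw [h1] at ha
    obtain ⟨X, _, rfl⟩ := List.mem_map.1 ha
    exact ⟨X, rfl⟩
  · ext w
    constructor
    · intro hw
      have := ReflTransGen.lift (p := Jump P) (List.map (pj τ)) (by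
        rintro _ _ ⟨r', ⟨r, hr, h1, h2⟩, u, v, u', v', rfl, rfl, e⟩
        exact ⟨r, hr, u.map (pj τ), v.map (pj τ), u'.map (pj τ), v'.map (pj τ),
          by simp only [List.map_append, h1, e1],
          by simp only [List.map_append, h2], by simp only [← List.map_append, e]⟩) _ _ hw
      rw [Function.onFun, e2] at this
      exact this
    · intro hw
      have key : ∀ α, ReflTransGen (Jump P) α (w.map τ) →
          ∃ α', α'.map (pj τ) = α ∧ ReflTransGen (JS P') α' (w.map .terminal) := by
        intro α hα
        induction hα using ReflTransGen.head_induction_on with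
        | refl => exact ⟨_, e2 w, .refl⟩
        | head h1 _ ih =>
          obtain ⟨r, hr, u, v, u', v', rfl, rfl, e⟩ := h1
          obtain ⟨β, h2, h3⟩ := ih
          obtain ⟨β1, v1, rfl, h4, rfl⟩ := List.map_eq_append_iff.1 h2
          obtain ⟨u1, y1, rfl, rfl, h5⟩ := List.map_eq_append_iff.1 h4
          obtain ⟨u2, v2, h6, rfl, rfl⟩ :=
            List.map_eq_append_iff.1 ((List.map_append.trans e.symm))
          refine ⟨u2 ++ r.1.map .nonterminal ++ v2, by simp only [List.map_append, e1],
            ReflTransGen.head ?_ h3⟩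
          exact ⟨(r.1.map .nonterminal, y1), ⟨r, hr, rfl, h5⟩, u2, v2, u1, v1, rfl, rfl, h6.symm⟩
      obtain ⟨α', h1, h2⟩ := key _ hw
      obtain ⟨a, rfl, h3⟩ := List.map_eq_singleton_iff.1 h1
      cases a with
      | terminal a => exact (hS a h3).elim
      | nonterminal X => cases h3; exact h2

end layer0

section layerG
open Classical

variable {T N : Type}

inductive NG (N τ : Type) (n : ℕ)
  | P (X : N) | c (t : τ) (j : Fin (n + 1)) | F

instance {τ : Type} [Finite N] [Finite τ] {n : ℕ} : Finite (NG N τ n) := by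
  let f : N ⊕ (τ × Fin (n + 1)) ⊕ Unit → NG N τ n := fun z => match z with
    | .inl X => .P X
    | .inr (.inl t) => .c t.1 t.2
    | .inr (.inr _) => .F
  refine Finite.of_surjective f fun z => ?_
  cases z with
  | P X => exact ⟨.inl X, rfl⟩
  | c t j => exact ⟨.inr (.inl (t, j)), rfl⟩
  | F => exact ⟨.inr (.inr ()), rfl⟩

variable {P : Set (Ru T N)} {n : ℕ}

def ug : Symbol T N → Symbol T (NG N P n)
  | .terminal a => .terminal a
  | .nonterminal X => .nonterminal (.P X)

abbrev cc (r : P) (j : Fin (n + 1)) : Symbol T (NG N P n) := .nonterminal (.c r j)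

abbrev fF : Symbol T (NG N P n) := .nonterminal .F

inductive RG (P : Set (Ru T N)) (n : ℕ) :
    List (Symbol T (NG N P n)) → List (Symbol T (NG N P n)) → Prop
  | g1 (r : P) (j : Fin (n + 1)) : (j : ℕ) = r.1.1.length →
      RG P n (r.1.1.map ug) (cc r j :: List.replicate (r.1.1.length - 1) fF)
  | g2 (r : P) (j j' : Fin (n + 1)) : r.1.1.length ≤ j → (j : ℕ) < r.1.2.length →
      (j' : ℕ) = j + 1 → RG P n [cc r j] [cc r j', fF]
  | g3 (r : P) (j : Fin (n + 1)) : (j : ℕ) = r.1.2.length →
      RG P n (cc r j :: List.replicate (r.1.2.length - 1) fF) (r.1.2.map ug)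

def PG (P : Set (Ru T N)) (n : ℕ) : Set (Ru T (NG N P n)) := {r | RG P n r.1 r.2}

def spG (sp : N → Prop) : NG N P n → Prop
  | .P X => sp X
  | .c _ _ => True
  | .F => False

def isF : Symbol T (NG N P n) → Bool
  | .nonterminal .F => true
  | _ => false

def dnG : Symbol T (NG N P n) → Option (Symbol T N)
  | .terminal a => some (.terminal a)
  | .nonterminal (.P X) => some (.nonterminal X)
  | _ => none

theorem ug_inj : Function.Injective (ug : Symbol T N → Symbol T (NG N P n)) := by
  intro a b h
  cases a <;> cases b <;> simp_all [ug]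

theorem ug_t (w : List T) : (w.map .terminal).map (ug (P := P) (n := n)) = w.map .terminal := by
  induction w <;> simp_all [ug]

theorem dn_ug (x : List (Symbol T N)) : (x.map (ug (P := P) (n := n))).filterMap dnG = x := by
  induction x with
  | nil => rfl
  | cons a x ih => cases a <;> simp_all [ug, dnG]

theorem cF_ug (x : List (Symbol T N)) : (x.map (ug (P := P) (n := n))).countP isF = 0 := by
  rw [List.countP_eq_zero]
  intro a ha
  obtain ⟨b, _, rfl⟩ := List.mem_map.1 ha
  cases b <;> simp [ug, isF]

theorem not_cc_ug (x : List (Symbol T N)) (r : P) (j : Fin (n + 1)) :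
    cc r j ∉ x.map (ug (P := P) (n := n)) := by
  intro ha
  obtain ⟨b, _, hb⟩ := List.mem_map.1 ha
  cases b <;> simp [ug, cc] at hb

theorem cntG_ug (sp : N → Prop) (x : List (Symbol T N)) :
    (x.map (ug (P := P) (n := n))).countP (fun a => decide (spc (spG sp) a)) =
      x.countP (fun a => decide (spc sp a)) := by
  rw [List.countP_map]
  congr 1
  funext a
  cases a <;> simp [ug, spc, spG]

theorem cntG_F (sp : N → Prop) (k : ℕ) :
    (List.replicate k (fF : Symbol T (NG N P n))).countP (fun a => decide (spc (spG sp) a)) = 0 := by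
  simp [List.countP_replicate, spc, spG]

theorem spc_cc (sp : N → Prop) (r : P) (j : Fin (n + 1)) :
    spc (spG sp) (cc r j : Symbol T (NG N P n)) := ⟨_, rfl, trivial⟩

theorem tokG {sp : N → Prop} (hT : Tok sp P) : Tok (spG sp) (PG P n) := by
  rintro ⟨x, y⟩ h
  have hc : ∀ (r : P) (j : Fin (n + 1)) (k : ℕ), (cc r j :: List.replicate k fF).countP
      (fun a : Symbol T (NG N P n) => decide (spc (spG sp) a)) = 1 := by
    intro r j k
    rw [List.countP_cons, cntG_F]
    simp [spc_cc]
  cases h with
  | g1 r j hj =>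
    obtain ⟨⟨a, h1, h1'⟩, h2, h3⟩ := hT r.1 r.2
    refine ⟨?_, ?_, ?_⟩
    · refine ⟨ug a, List.mem_map_of_mem h1, ?_⟩
      obtain ⟨X, rfl, hX⟩ := h1'
      exact ⟨_, rfl, hX⟩
    · simpa only [H16.JG.One, cntG_ug] using h2
    · exact (hc _ _ _).le
  | g2 r j j' h1 h2 h3 =>
    refine ⟨⟨_, List.mem_singleton_self _, spc_cc _ _ _⟩, ?_, ?_⟩
    · exact (hc r j 0).le
    · exact (hc r j' 1).le
  | g3 r j hj =>
    obtain ⟨-, h2, h3⟩ := hT r.1 r.2
    refine ⟨⟨_, List.mem_cons_self, spc_cc _ _ _⟩, ?_, ?_⟩
    · exact (hc _ _ _).le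
    · simpa only [H16.JG.One, cntG_ug] using h3

theorem monoG (hM : Mono P) : Mono (PG P n) := by
  rintro ⟨x, y⟩ h
  have hF : ∀ (r : P) (j : Fin (n + 1)) (k : ℕ), ∀ a ∈ cc r j :: List.replicate k fF,
      ∃ X, a = (Symbol.nonterminal X : Symbol T (NG N P n)) := by
    intro r j k a ha
    rcases List.mem_cons.1 ha with rfl | ha
    · exact ⟨_, rfl⟩
    · rw [List.mem_replicate] at ha
      exact ⟨_, ha.2⟩
  cases h with
  | g1 r j hj =>
    obtain ⟨h1, h2, h3⟩ := hM r.1 r.2
    have := List.length_pos_iff.2 h1
    refine ⟨by simp [h1], by simp; omega, ?_⟩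
    intro a ha
    obtain ⟨b, hb, rfl⟩ := List.mem_map.1 ha
    obtain ⟨X, rfl⟩ := h3 b hb
    exact ⟨_, rfl⟩
  | g2 r j j' h1 h2 h3 => exact ⟨by simp, by simp, hF r j 0⟩
  | g3 r j hj =>
    obtain ⟨h1, h2, h3⟩ := hM r.1 r.2
    have := List.length_pos_iff.2 h1
    refine ⟨by simp, by simp; omega, hF _ _ _⟩

theorem shapeG (hM : Mono P) : ∀ r ∈ PG P n, r.1.length = r.2.length ∨
    (r.1.length = 1 ∧ r.2.length = 2) := by
  rintro ⟨x, y⟩ h
  cases h with
  | g1 r j hj =>
    obtain ⟨h1, h2, h3⟩ := hM r.1 r.2
    have := List.length_pos_iff.2 h1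
    left; simp; omega
  | g2 r j j' h1 h2 h3 => right; simp
  | g3 r j hj =>
    obtain ⟨h1, h2, h3⟩ := hM r.1 r.2
    have := List.length_pos_iff.2 h1
    left; simp; omega

def IG (S : N) (α : List (Symbol T (NG N P n))) : Prop :=
  (∃ β, α = β.map ug ∧ ReflTransGen (JS P) [.nonterminal S] β) ∨
  ∃ (r : P) (j : Fin (n + 1)), r.1.1.length ≤ j ∧ (j : ℕ) ≤ r.1.2.length ∧ cc r j ∈ α ∧
    α.countP isF = j - 1 ∧
    ∀ u' v', u' ++ v' = α.filterMap dnG → ReflTransGen (JS P) [.nonterminal S] (u' ++ r.1.2 ++ v')

theorem filt_cF (r : P) (j : Fin (n + 1)) (k : ℕ) :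
    (cc r j :: List.replicate k fF : List (Symbol T (NG N P n))).filterMap dnG = [] := by
  rw [List.filterMap_eq_nil_iff]
  intro a ha
  rcases List.mem_cons.1 ha with rfl | ha
  · rfl
  · rw [List.mem_replicate] at ha
    rw [ha.2]; rfl

theorem count_cF (r : P) (j : Fin (n + 1)) (k : ℕ) :
    (cc r j :: List.replicate k fF : List (Symbol T (NG N P n))).countP isF = k := by
  rw [List.countP_cons, List.countP_replicate]
  simp [isF]

theorem clean {l : List (Symbol T (NG N P n))} (h1 : l.countP isF = 0)
    (h2 : ∀ (r : P) (j : Fin (n + 1)), cc r j ∉ l) : (l.filterMap dnG).map ug = l := by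
  induction l with
  | nil => rfl
  | cons a l ih =>
    rw [List.countP_cons] at h1
    have h3 := ih (by omega) (fun r j hj => h2 r j (List.mem_cons_of_mem _ hj))
    rcases a with a | X
    · have h4 : dnG (P := P) (n := n) (Symbol.terminal a) = some (Symbol.terminal a) := rfl
      rw [List.filterMap_cons_some h4, List.map_cons, h3]
      rfl
    · rcases X with X | ⟨t, j⟩ | _
      · have h4 : dnG (P := P) (n := n) (Symbol.nonterminal (NG.P X)) =
          some (Symbol.nonterminal X) := rfl
        rw [List.filterMap_cons_some h4, List.map_cons, h3]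
        rfl
      · exact (h2 t j (by simp)).elim
      · simp [isF] at h1

theorem soundG {sp : N → Prop} (hT : Tok sp P) (hM : Mono P) (S : N)
    {α : List (Symbol T (NG N P n))}
    (h : ReflTransGen (JS (PG P n)) [.nonterminal (.P S)] α) : IG S α := by
  induction h with
  | refl => exact Or.inl ⟨[.nonterminal S], rfl, .refl⟩
  | tail h0 h ih =>
    have hone := one_reach (tokG (n := n) hT) h0
    obtain ⟨⟨x, y⟩, hr, u1, v1, u2, v2, rfl, rfl, e⟩ := h
    have hout := one_out hone (tokG (n := n) hT _ hr).1
    have hcF : (u2 ++ v2).countP isF = (u1 ++ v1).countP isF := by rw [e]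
    have hdn : (u2 ++ v2).filterMap dnG = (u1 ++ v1).filterMap dnG := by rw [e]
    have hincc : ∀ (r : P) (j : Fin (n + 1)), cc r j ∈ u1 ++ x ++ v1 → cc r j ∈ x := by
      intro r j h1
      simp only [List.mem_append] at h1 hout
      rcases h1 with (h1 | h1) | h1
      · exact (hout _ (Or.inl h1) (spc_cc _ _ _)).elim
      · exact h1
      · exact (hout _ (Or.inr h1) (spc_cc _ _ _)).elim
    simp only [List.countP_append, List.filterMap_append] at hcF hdn
    cases hr with
    | g1 r j hj =>
      rcases ih with ⟨β, e1, h1⟩ | ⟨r0, j0, h1, h2, h3, h4, h5⟩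
      · obtain ⟨β1, v, rfl, e2, rfl⟩ := List.map_eq_append_iff.1 e1.symm
        obtain ⟨u, x', rfl, rfl, e3⟩ := List.map_eq_append_iff.1 e2
        obtain rfl := (List.map_injective_iff.2 ug_inj) e3
        have hl := (hM r.1 r.2).2.1
        refine Or.inr ⟨r, j, hj.ge, hj ▸ hl, by simp, ?_, ?_⟩
        · simp only [List.countP_append, count_cF, cF_ug] at hcF ⊢
          omega
        · intro u' v' e4
          refine h1.tail ⟨r.1, r.2, u, v, u', v', rfl, rfl, ?_⟩
          simp only [List.filterMap_append, filt_cF, dn_ug, List.append_nil] at hdn e4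
          rw [e4, hdn]
      · exact (not_cc_ug _ _ _ (hincc _ _ h3)).elim
    | g2 r j j' hj1 hj2 hj3 =>
      rcases ih with ⟨β, e1, h1⟩ | ⟨r0, j0, h1, h2, h3, h4, h5⟩
      · exact (not_cc_ug β r j (by rw [← e1]; simp)).elim
      · have h6 := hincc _ _ h3
        simp only [List.mem_singleton, cc, Symbol.nonterminal.injEq, NG.c.injEq] at h6
        obtain ⟨rfl, rfl⟩ := h6
        refine Or.inr ⟨r0, j', by omega, by omega, by simp, ?_, ?_⟩
        · have h7 := count_cF (n := n) r0 j0 0
          have h8 := count_cF (n := n) r0 j' 1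
          have h9 := List.length_pos_iff.2 (hM r0.1 r0.2).1
          simp only [List.replicate_zero, List.replicate_one] at h7 h8
          simp only [List.countP_append, h7, h8] at h4 ⊢
          omega
        · intro u' v' e4
          refine h5 u' v' ?_
          have h7 := filt_cF (n := n) r0 j0 0
          have h8 := filt_cF (n := n) r0 j' 1
          simp only [List.replicate_zero, List.replicate_one] at h7 h8
          simp only [List.filterMap_append, h7, h8, List.append_nil] at e4 ⊢
          rw [e4, hdn]
    | g3 r j hj =>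
      rcases ih with ⟨β, e1, h1⟩ | ⟨r0, j0, h1, h2, h3, h4, h5⟩
      · exact (not_cc_ug β r j (by rw [← e1]; simp)).elim
      · have h6 := hincc _ _ h3
        simp only [List.mem_cons, List.mem_replicate, cc, Symbol.nonterminal.injEq, NG.c.injEq,
          reduceCtorEq, and_false, or_false] at h6
        obtain ⟨rfl, rfl⟩ := h6
        simp only [List.countP_append, count_cF] at h4
        have hcl2 : (u2.filterMap dnG).map ug = u2 := by
          refine clean (by omega) fun r' j' hc => ?_
          exact hout (cc r' j') (by rw [e]; exact List.mem_append_left _ hc) (spc_cc _ _ _)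
        have hcl3 : (v2.filterMap dnG).map ug = v2 := by
          refine clean (by omega) fun r' j' hc => ?_
          exact hout (cc r' j') (by rw [e]; exact List.mem_append_right _ hc) (spc_cc _ _ _)
        refine Or.inl ⟨u2.filterMap dnG ++ r0.1.2 ++ v2.filterMap dnG, ?_, h5 _ _ ?_⟩
        · simp only [List.map_append, hcl2, hcl3]
        · simp only [List.filterMap_append, filt_cF, List.append_nil]
          rw [hdn]

theorem compG (hM : Mono P) (hn : ∀ r ∈ P, r.2.length ≤ n) {α β : List (Symbol T N)}
    (h : JS P α β) : ReflTransGen (JS (PG P n)) (α.map ug) (β.map ug) := by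
  obtain ⟨r0, hr, u, v, u', v', rfl, rfl, e⟩ := h
  obtain ⟨h1, h2, h3⟩ := hM r0 hr
  have h4 := List.length_pos_iff.2 h1
  have h5 := hn r0 hr
  let r : P := ⟨r0, hr⟩
  have key : ∀ i : ℕ, ∀ hi : r0.1.length + i < n + 1, r0.1.length + i ≤ r0.2.length →
      ReflTransGen (JS (PG P n)) ((u ++ r0.1 ++ v).map ug) (u'.map ug ++
        (cc r ⟨r0.1.length + i, hi⟩ :: List.replicate (r0.1.length + i - 1) fF) ++ v'.map ug) := by
    intro i
    induction i with
    | zero =>
      intro hi _
      refine .single ⟨(_, _), RG.g1 r ⟨r0.1.length + 0, hi⟩ rfl, u.map ug, v.map ug, u'.map ug,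
        v'.map ug, by simp [r], by simp [r], by simp only [← List.map_append, e]⟩
    | succ i ih =>
      intro hi hle
      refine (ih (by omega) (by omega)).tail ⟨(_, _), RG.g2 r ⟨r0.1.length + i, by omega⟩
        ⟨r0.1.length + (i + 1), hi⟩ (by simp [r]) (by simp [r]; omega) (by simp; omega), u'.map ug,
        List.replicate (r0.1.length + i - 1) fF ++ v'.map ug, u'.map ug,
        List.replicate (r0.1.length + i - 1) fF ++ v'.map ug, by simp, ?_, rfl⟩
      have : r0.1.length + (i + 1) - 1 = (r0.1.length + i - 1) + 1 := by omega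
      rw [this, List.replicate_succ]
      simp
  have h6 := key (r0.2.length - r0.1.length) (by omega) (by omega)
  refine h6.tail ⟨(_, _), RG.g3 r ⟨r0.1.length + (r0.2.length - r0.1.length), by omega⟩
    (by simp [r]; omega), u'.map ug, v'.map ug, u'.map ug, v'.map ug, ?_, by simp [r], rfl⟩
  have : r0.1.length + (r0.2.length - r0.1.length) - 1 = r0.2.length - 1 := by omega
  rw [this]

theorem layerG {sp : N → Prop} (hT : Tok sp P) (hM : Mono P) (hn : ∀ r ∈ P, r.2.length ≤ n)
    (S : N) : Lg (PG P n) (.P S) = Lg P S := by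
  ext w
  constructor
  · intro h
    rcases soundG hT hM S h with ⟨β, e, h1⟩ | ⟨r, j, -, -, h1, -⟩
    · rw [← ug_t] at e
      obtain rfl := (List.map_injective_iff.2 ug_inj) e
      exact h1
    · simp [cc] at h1
  · intro h
    have := ReflTransGen.lift' (p := JS (PG P n)) (List.map ug)
      (fun _ _ h => compG hM hn h) _ _ h
    rw [Function.onFun, ug_t] at this
    exact this

theorem finG [Finite T] [Finite N] (hf : P.Finite) (hn : ∀ r ∈ P, r.2.length ≤ n)
    (hM : Mono P) : (PG P n).Finite := by
  have := hf.to_subtype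
  refine fin_of_len (n + 2) fun r hr => ?_
  have h2 := (monoG hM r hr).2.1
  suffices r.2.length ≤ n + 2 by omega
  obtain ⟨x, y⟩ := r
  cases hr with
  | g1 r j hj =>
    have := hn r.1 r.2
    have := (hM r.1 r.2).2.1
    simp; omega
  | g2 r j j' h1 h2 h3 => simp
  | g3 r j hj =>
    have := hn r.1 r.2
    simp; omega

end layerG

/-- The rules of a grammar with growth normal form: `α A β → α b β` (one nonterminal is replaced by
one symbol, in a context), and `A → b c`. -/
def GNF {T N : Type} (r : List (Symbol T N) × List (Symbol T N)) : Prop :=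
  (∃ (α β : List (Symbol T N)) (A : N) (b : Symbol T N),
    r.1 = α ++ [Symbol.nonterminal A] ++ β ∧ r.2 = α ++ [b] ++ β) ∨
  ∃ (A : N) (b c : Symbol T N), r.1 = [Symbol.nonterminal A] ∧ r.2 = [b, c]

theorem general {T V : Type} [Finite T] [Finite V] (τ : T → V) (P : Set (List V × List V))
    (hP : P.Finite) (hm : ∀ r ∈ P, 0 < r.1.length ∧ r.1.length ≤ r.2.length)
    (A : Set (List V)) (hA : A.Finite) (hne : ∀ a ∈ A, 0 < a.length) :
    ∃ (N : Type) (_ : Finite N) (S : N) (Q : Set (List (Symbol T N) × List (Symbol T N))),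
      Q.Finite ∧ (∀ r ∈ Q, GNF r) ∧
      {w : List T | ReflTransGen (Jump Q) [Symbol.nonterminal S] (w.map Symbol.terminal)} =
        {w : List T | ∃ a ∈ A, ReflTransGen (Jump P) a (w.map τ)} := by
  have hne1 : ∀ r ∈ P, r.1 ≠ [] := fun r hr => List.length_pos_iff.1 (hm r hr).1
  have fA : (AxP P A).Finite := by
    have : AxP P A = ((fun s : List V × List V => (s.1.map some, s.2.map some)) '' P) ∪
        ((fun a : List V => (([none] : List (Option V)), a.map some)) '' A) := by
      ext r
      simp only [AxP, Set.mem_union, Set.mem_image, Set.mem_ofPred_eq, eq_comm]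
    rw [this]
    exact (hP.image _).union (hA.image _)
  have mA : ∀ r ∈ AxP P A, r.1 ≠ [] ∧ r.1.length ≤ r.2.length := by
    rintro r (⟨s, hs, rfl⟩ | ⟨a, ha, rfl⟩)
    · exact ⟨by simpa using hne1 s hs, by simpa using (hm s hs).2⟩
    · have := hne a ha
      exact ⟨by simp, by simp; omega⟩
  obtain ⟨P0, f0, m0, e0⟩ := layer0' (fun a => some (τ a)) fA mA none (by simp)
  have := f0.to_subtype
  have f1 := finA f0 m0
  have := f1.to_subtype
  obtain ⟨n, hn⟩ := (f1.image fun r => r.2.length).bddAbove
  have hn' : ∀ r ∈ PA P0, r.2.length ≤ n := fun r hr => hn ⟨r, hr, rfl⟩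
  have f2 := finG f1 hn' (monoA m0)
  have := f2.to_subtype
  obtain ⟨k, hk⟩ := (f2.image fun r => r.2.length).bddAbove
  have hk' : ∀ r ∈ PG (PA P0) n, r.2.length ≤ k := fun r hr => hk ⟨r, hr, rfl⟩
  have e1 := ((layerB (tokG tokA) (monoG (monoA m0)) hk' _).trans
    (layerG tokA (monoA m0) hn' _)).trans (layerA m0 none)
  have hlen : ∀ p ∈ PB (spG spA) (PG (PA P0) n) k, ∃ r ∈ PG (PA P0) n,
      (p.1.length = r.1.length ∨ p.1.length = r.2.length) ∧ p.2.length = r.2.length := by
    rintro p ⟨_, r, h1, h2⟩
    refine ⟨r.1, r.2, ?_, ?_⟩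
    · rcases h1 with h1 | h1
      · left; rw [h1, List.length_map]
      · right; exact h1.1
    · rcases h2 with h2 | h2
      · exact h2.1
      · rw [h2, List.length_map]
  refine ⟨_, inferInstance, Sum.inl (NG.P (NA.Mk none)), PB (spG spA) (PG (PA P0) n) k,
    fin_of_len k ?_, ?_, ?_⟩
  · intro p hp
    obtain ⟨r, hr, h1, h2⟩ := hlen p hp
    have h3 := hk' r hr
    have h4 := (monoG (monoA m0) r hr).2.1
    omega
  · intro p hp
    obtain ⟨r, hr, h1, h2⟩ := hlen p hp
    have h3 := shapeG (monoA m0) r hr
    obtain ⟨⟨α, β, γ, B, h4, h5, h6⟩, -⟩ := hp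
    have h7 := congrArg List.length h5
    have h8 := congrArg List.length h6
    simp only [List.length_append, List.length_cons, List.length_nil] at h7 h8
    have h9 := List.length_pos_iff.2 h4
    by_cases h10 : p.1.length = p.2.length
    · have h11 : γ.length = 1 := by omega
      obtain ⟨b, rfl⟩ := List.length_eq_one_iff.1 h11
      exact Or.inl ⟨α, β, B, b, h5, h6⟩
    · have h12 : p.1.length = 1 ∧ p.2.length = 2 := by omega
      have h13 : α = [] := List.length_eq_zero_iff.1 (by omega)
      have h14 : β = [] := List.length_eq_zero_iff.1 (by omega)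
      subst h13 h14
      have h15 : γ.length = 2 := by simp at h8; omega
      obtain ⟨b, c, rfl⟩ := List.length_eq_two.1 h15
      exact Or.inr ⟨B, b, c, by simpa using h5, by simpa using h6⟩
  · refine e1.trans (e0.trans ?_)
    ext w
    have := axioms_iff (A := A) hne1 (w.map τ)
    rw [List.map_map] at this
    exact this

/-- 1. Every jumping monotone grammar has an equivalent jumping context-sensitive grammar all of
whose rules are `α A β → α b β` or `A → b c` (`A` a nonterminal, `b`, `c` symbols).

2. More generally let `T`, `V` be finite alphabets, `P` a finite set of pairs of words over `V` with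
`0 < |x| ≤ |y|` for all `(x, y) ∈ P` (there is no distinction between terminals and nonterminals),
`A` a finite set of nonempty words over `V`, and `τ : T → V`. The language of all words `w` over `T`
for which `τ(w)` can be derived from a word of `A` by jumping steps is generated in the jumping mode
by a grammar with such rules. -/
theorem result :
    (∀ (T N : Type) [Finite T] [Finite N] (S : N)
      (P : Set (List (Symbol T N) × List (Symbol T N))), P.Finite →
      (∀ r ∈ P, (∃ A : N, Symbol.nonterminal A ∈ r.1) ∧ r.1.length ≤ r.2.length) →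
      ∃ (N' : Type) (_ : Finite N') (S' : N') (Q : Set (List (Symbol T N') × List (Symbol T N'))),
        Q.Finite ∧ (∀ r ∈ Q, GNF r) ∧
        {w : List T | ReflTransGen (Jump Q) [Symbol.nonterminal S'] (w.map Symbol.terminal)} =
          {w : List T | ReflTransGen (Jump P) [Symbol.nonterminal S] (w.map Symbol.terminal)}) ∧
    (∀ (T V : Type) [Finite T] [Finite V] (τ : T → V) (P : Set (List V × List V)), P.Finite →
      (∀ r ∈ P, 0 < r.1.length ∧ r.1.length ≤ r.2.length) →
      ∀ A : Set (List V), A.Finite → (∀ a ∈ A, 0 < a.length) →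
      ∃ (N : Type) (_ : Finite N) (S : N) (Q : Set (List (Symbol T N) × List (Symbol T N))),
        Q.Finite ∧ (∀ r ∈ Q, GNF r) ∧
        {w : List T | ReflTransGen (Jump Q) [Symbol.nonterminal S] (w.map Symbol.terminal)} =
          {w : List T | ∃ a ∈ A, ReflTransGen (Jump P) a (w.map τ)}) := by
  refine ⟨?_, ?_⟩
  · intro T N _ _ S P hP hm
    obtain ⟨N', h1, S', Q, h2, h3, h4⟩ := general (T := T) (V := Symbol T N) Symbol.terminal P hP
      (fun r hr => ⟨by obtain ⟨A, hA⟩ := (hm r hr).1; exact List.length_pos_of_mem hA,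
        (hm r hr).2⟩) {[Symbol.nonterminal S]} (Set.finite_singleton _) (by
          intro a ha
          obtain rfl := Set.mem_singleton_iff.1 ha
          simp)
    refine ⟨N', h1, S', Q, h2, h3, h4.trans ?_⟩
    ext w
    simp
  · intro T V _ _ τ P hP hm A hA hne
    exact general τ P hP hm A hA hne

end Pool.Agent.Results.MP_708d71_lc.GrowthNormalForm
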